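import Mathlib

namespace Pool.Agent.Thrifty

/-- The input variables of tree evaluation with values in `Fin k`. Nodes of the complete binary
tree are addressed by lists of booleans: `[]` is the root, `a ++ [false]` and `a ++ [true]` are the
children of `a`. The variable `(a, none)` is the value of the leaf `a`; the variable
`(a, some (x, y))` is the entry `(x, y)` of the table of the inner node `a`. -/
abbrev Var (k : ℕ) := List Bool × Option (Fin k × Fin k)

/-- The value of the node `a` if there are `h` levels of nodes below it. -/
def val {k : ℕ} (I : Var k → Fin k) : ℕ → List Bool → Fin k
  | 0, a => I (a, none)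
  | h + 1, a => I (a, some (val I h (a ++ [false]), val I h (a ++ [true])))

/-- The correct answer for the tree with `h + 1` levels: does the root have value `0`? -/
def rootZero {k : ℕ} (I : Var k → Fin k) (h : ℕ) : Bool := decide ((val I h []).val = 0)

/-- In the tree with `h + 1` levels, the variable `q` is a leaf, or it is the entry of the table of
an inner node at the true values of its two children. -/
def TrueQuery {k : ℕ} (h : ℕ) (I : Var k → Fin k) (q : Var k) : Prop :=
  (q.1.length = h ∧ q.2 = none) ∨
    ∃ j, q.1.length + (j + 1) = h ∧ q.2 = some (val I j (q.1 ++ [false]), val I j (q.1 ++ [true]))

/-- A nondeterministic `k`-way branching program: a finite set `S` of states, a start state, for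
each state the variable it queries or (final states) the output, and the edges, labelled by
answers. -/
structure Program (k : ℕ) where
  /-- the states -/
  S : Type
  /-- there are finitely many -/
  fin : Fintype S
  /-- the start state -/
  start : S
  /-- the variable queried, or the output in a final state -/
  kind : S → Var k ⊕ Bool
  /-- `edge s z s'`: there is an edge with label `z` from `s` to `s'` -/
  edge : S → Fin k → S → Prop

/-- The number of states. -/
def Program.size {k : ℕ} (P : Program k) : ℕ := @Fintype.card P.S P.fin

/-- `P.Comp I s l b`: on the input `I` there is a computation from the state `s` through the states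
of the list `l` (which begins with `s`) that ends in a final state with output `b`. -/
inductive Program.Comp {k : ℕ} (P : Program k) (I : Var k → Fin k) : P.S → List P.S → Bool → Prop
  | final {s : P.S} {b : Bool} : P.kind s = Sum.inr b → P.Comp I s [s] b
  | step {s s' : P.S} {q : Var k} {l : List P.S} {b : Bool} :
      P.kind s = Sum.inl q → P.edge s (I q) s' → P.Comp I s' l b → P.Comp I s (s :: l) b

/-- `P` decides whether the root of the tree with `h + 1` levels has value `0`: for every input
some computation ends in a final state, and all those that do give the right output. -/
def Program.Solves {k : ℕ} (P : Program k) (h : ℕ) : Prop :=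
  ∀ I : Var k → Fin k, (∃ l b, P.Comp I P.start l b) ∧
    ∀ l b, P.Comp I P.start l b → b = rootZero I h

/-- `P` is thrifty: in every computation that ends in a final state all queries are true
queries. -/
def Program.IsThrifty {k : ℕ} (P : Program k) (h : ℕ) : Prop :=
  ∀ (I : Var k → Fin k) (l : List P.S) (b : Bool), P.Comp I P.start l b →
    ∀ s ∈ l, ∀ q, P.kind s = Sum.inl q → TrueQuery h I q

/-- `P` is unambiguous: for every input at most one computation ends in a final state. -/
def Program.Unambiguous {k : ℕ} (P : Program k) : Prop :=
  ∀ (I : Var k → Fin k) (l l' : List P.S) (b b' : Bool),
    P.Comp I P.start l b → P.Comp I P.start l' b' → l = l'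

/-- `P` is deterministic: from every querying state there is exactly one edge for each answer. -/
def Program.Deterministic {k : ℕ} (P : Program k) : Prop :=
  ∀ (s : P.S) (q : Var k) (z : Fin k), P.kind s = Sum.inl q → ∃! s', P.edge s z s'

end Pool.Agent.Thrifty
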